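import Pool.Agent.L0h80.TC.Lim
import Pool.Agent.Helper583.TCJ2

/-!
Computable presentations of the countable discrete space: ranks of points, recursive in the halting
function.
-/

set_option autoImplicit false
set_option maxHeartbeats 400000

namespace Pool.Agent.L0h80.TC

open Filter Topology
open Pool.Agent.Helper583.TT (CMS IsName pre)
open Pool.Agent.Helper743 (TR K)

/-- a computable presentation of an infinite discrete space, with a fixed approximation of the
distances -/
structure Disc where
  M : CMS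
  disc : DiscreteTopology M.Y
  inf : Infinite M.Y
  q : ℕ × ℕ × ℕ → ℕ
  hq : Computable q
  happ : ∀ i j k, |dist (M.c i) (M.c j) - (q (i, j, k) : ℝ) / 2 ^ k| ≤ 1 / 2 ^ k

namespace Disc

variable (D : Disc)

theorem surj : Function.Surjective D.M.c := by
  have := D.disc
  have h := D.M.dense
  intro x
  have h1 : x ∈ closure (Set.range D.M.c) := h x
  rw [closure_discrete] at h1
  exact h1

/-- `c i ≠ c j` is seen at stage `s` -/
def ne (i j s : ℕ) : Bool := bex (fun k => decide (2 ≤ D.q (i, j, k))) s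

theorem comp_ne : Computable fun z : (ℕ × ℕ) × ℕ => D.ne z.1.1 z.1.2 z.2 := by
  unfold ne
  refine comp_bex (p := fun (z : (ℕ × ℕ) × ℕ) k => decide (2 ≤ D.q (z.1.1, z.1.2, k))) ?_
    Computable.snd
  have h1 : Computable (fun n : ℕ => decide (2 ≤ n)) :=
    (PrimrecPred.decide (Primrec.nat_le.comp (Primrec.const 2) Primrec.id)).to_comp
  refine h1.comp (D.hq.comp ?_)
  exact (Computable.fst.comp (Computable.fst.comp Computable.fst)).pair
    ((Computable.snd.comp (Computable.fst.comp Computable.fst)).pair Computable.snd)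

theorem sound {i j k : ℕ} (h : 2 ≤ D.q (i, j, k)) : D.M.c i ≠ D.M.c j := by
  intro he
  have h1 := D.happ i j k
  rw [he, dist_self, zero_sub, abs_neg, abs_of_nonneg (by positivity)] at h1
  have h2 : (D.q (i, j, k) : ℝ) ≤ 1 := by
    have h3 : (0 : ℝ) < 2 ^ k := by positivity
    rw [div_le_div_iff_of_pos_right h3] at h1
    exact h1
  have h3 : D.q (i, j, k) ≤ 1 := by exact_mod_cast h2
  omega

theorem exists_two {i j : ℕ} (h : D.M.c i ≠ D.M.c j) : ∃ k0, ∀ k ≥ k0, 2 ≤ D.q (i, j, k) := by
  have hd : 0 < dist (D.M.c i) (D.M.c j) := dist_pos.2 h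
  obtain ⟨k0, hk0⟩ := exists_pow_lt_of_lt_one (show 0 < dist (D.M.c i) (D.M.c j) / 2 by positivity)
    (show (1 / 2 : ℝ) < 1 by norm_num)
  refine ⟨k0, fun k hk => ?_⟩
  have h1 := (abs_le.1 (D.happ i j k)).2
  have h2 : (1 / 2 : ℝ) ^ k ≤ (1 / 2 : ℝ) ^ k0 := pow_le_pow_of_le_one (by norm_num) (by norm_num) hk
  have h3 : (1 : ℝ) / 2 ^ k = (1 / 2 : ℝ) ^ k := by rw [one_div_pow]
  have h4 : (0 : ℝ) < 2 ^ k := by positivity
  have h5 : (1 : ℝ) / 2 ^ k < (D.q (i, j, k) : ℝ) / 2 ^ k := by
    rw [h3] at h1 ⊢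
    linarith
  rw [div_lt_div_iff_of_pos_right h4] at h5
  have h6 : 1 < D.q (i, j, k) := by exact_mod_cast h5
  omega

open Classical in
theorem ev_ne (i j : ℕ) : ∀ᶠ s in atTop, D.ne i j s = decide (D.M.c i ≠ D.M.c j) := by
  by_cases h : D.M.c i = D.M.c j
  · refine Eventually.of_forall fun s => ?_
    have h1 : D.ne i j s = false := by
      rw [← Bool.not_eq_true]
      unfold ne
      rw [bex_iff]
      rintro ⟨k, -, hk⟩
      exact D.sound (of_decide_eq_true hk) h
    rw [h1]
    simp [h]
  · obtain ⟨k0, hk0⟩ := D.exists_two h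
    filter_upwards [eventually_gt_atTop k0] with s hs
    have h1 : D.ne i j s = true := by
      unfold ne
      rw [bex_iff]
      exact ⟨k0, hs, decide_eq_true (hk0 k0 le_rfl)⟩
    rw [h1]
    simp [h]

/-- `j` is the first name of its point -/
def New (j : ℕ) : Prop := ∀ l < j, D.M.c l ≠ D.M.c j

/-- the first name of the point `c i` -/
noncomputable def fst (i : ℕ) : ℕ :=
  open Classical in Nat.find (⟨i, rfl⟩ : ∃ j, D.M.c j = D.M.c i)

theorem c_fst (i : ℕ) : D.M.c (D.fst i) = D.M.c i := by
  classical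
  exact Nat.find_spec (⟨i, rfl⟩ : ∃ j, D.M.c j = D.M.c i)

theorem fst_le (i : ℕ) : D.fst i ≤ i := by
  classical
  exact Nat.find_min' (⟨i, rfl⟩ : ∃ j, D.M.c j = D.M.c i) rfl

theorem fst_min {i l : ℕ} (h : l < D.fst i) : D.M.c l ≠ D.M.c i := by
  classical
  exact Nat.find_min (⟨i, rfl⟩ : ∃ j, D.M.c j = D.M.c i) h

theorem new_fst (i : ℕ) : D.New (D.fst i) := by
  intro l hl
  rw [D.c_fst]
  exact D.fst_min hl

theorem fst_eq {i j : ℕ} (h : D.M.c i = D.M.c j) : D.fst i = D.fst j := by
  apply le_antisymm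
  · by_contra hc
    push Not at hc
    exact D.fst_min hc ((D.c_fst j).trans h.symm)
  · by_contra hc
    push Not at hc
    exact D.fst_min hc ((D.c_fst i).trans h)

theorem fst_new {i : ℕ} (h : D.New i) : D.fst i = i := by
  by_contra hc
  exact h _ (lt_of_le_of_ne (D.fst_le i) hc) (D.c_fst i)

open Classical in
/-- the rank of the point `c i` -/
noncomputable def u (i : ℕ) : ℕ := Nat.count D.New (D.fst i)

theorem u_eq_iff {i j : ℕ} : D.u i = D.u j ↔ D.M.c i = D.M.c j := by
  classical
  constructor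
  · intro h
    have h1 : D.fst i = D.fst j := by
      refine Nat.count_injective (p := D.New) (D.new_fst i) (D.new_fst j) ?_
      unfold u at h
      convert h
    rw [← D.c_fst i, h1, D.c_fst j]
  · intro h
    unfold u
    rw [D.fst_eq h]

theorem new_infinite : (Set.ofPred D.New).Infinite := by
  intro hf
  have hI := D.inf
  have h1 : (D.M.c '' Set.ofPred D.New) = Set.univ := by
    apply Set.eq_univ_of_forall
    intro x
    obtain ⟨i, rfl⟩ := D.surj x
    exact ⟨D.fst i, D.new_fst i, D.c_fst i⟩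
  have h2 : (Set.univ : Set D.M.Y).Finite := h1 ▸ hf.image _
  exact Set.infinite_univ h2

theorem u_surj (m : ℕ) : ∃ i, D.u i = m := by
  classical
  refine ⟨Nat.nth D.New m, ?_⟩
  unfold u
  rw [D.fst_new (Nat.nth_mem_of_infinite D.new_infinite m)]
  have := Nat.count_nth_of_infinite D.new_infinite m
  convert this

/-- no name of `c j` before `j` is known at stage `s` -/
def p1 (z : ℕ × ℕ) (j : ℕ) : Bool := !bex (fun l => !D.ne l j z.2) j

/-- no name of `c i` up to `j` is known at stage `s` -/
def p2 (z : ℕ × ℕ) (j : ℕ) : Bool := !bex (fun l => !D.ne l z.1 z.2) (j + 1)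

/-- conjunction -/
def p3 (z : ℕ × ℕ) (j : ℕ) : Bool := D.p1 z j && D.p2 z j

theorem comp_p1 : Computable₂ D.p1 := by
  have g : Computable (fun v : ((ℕ × ℕ) × ℕ) × ℕ => ((v.2, v.1.2), v.1.1.2)) :=
    (Computable.snd.pair (Computable.snd.comp Computable.fst)).pair
      (Computable.snd.comp (Computable.fst.comp Computable.fst))
  have h := Computable.comp D.comp_ne g
  have h' := Computable.comp Primrec.not.to_comp h
  have h0 : Computable₂ (fun (w : (ℕ × ℕ) × ℕ) (l : ℕ) => !D.ne l w.2 w.1.2) := h'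
  have h1 := comp_bex h0 Computable.snd
  have h2 := Computable.comp Primrec.not.to_comp h1
  exact h2

theorem comp_p2 : Computable₂ D.p2 := by
  have g : Computable (fun v : ((ℕ × ℕ) × ℕ) × ℕ => ((v.2, v.1.1.1), v.1.1.2)) :=
    (Computable.snd.pair (Computable.fst.comp (Computable.fst.comp Computable.fst))).pair
      (Computable.snd.comp (Computable.fst.comp Computable.fst))
  have h := Computable.comp D.comp_ne g
  have h' := Computable.comp Primrec.not.to_comp h
  have h0 : Computable₂ (fun (w : (ℕ × ℕ) × ℕ) (l : ℕ) => !D.ne l w.1.1 w.1.2) := h'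
  have h1 := comp_bex h0 (Computable.succ.comp Computable.snd)
  have h2 := Computable.comp Primrec.not.to_comp h1
  exact h2

theorem comp_p3 : Computable₂ D.p3 := by
  have h := Primrec.and.to_comp.comp D.comp_p1 D.comp_p2
  exact h.of_eq fun w => rfl

/-- approximation of the rank -/
def ua (i s : ℕ) : ℕ := cnt (D.p3 (i, s)) i

theorem comp_ua : Computable₂ D.ua := by
  have h : Computable (fun z : ℕ × ℕ => cnt (D.p3 z) z.1) := comp_cnt D.comp_p3 Computable.fst
  exact h.of_eq fun z => rfl

open Classical in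
theorem ev_ua (i : ℕ) : ∀ᶠ s in atTop, D.ua i s = D.u i := by
  have h1 : ∀ j : ℕ, ∀ᶠ s in atTop, D.p3 (i, s) j = decide (D.New j ∧ j < D.fst i) := by
    intro j
    have h2 := ev_bex (p := fun s l => !D.ne l j s)
      (r := fun l => !decide (D.M.c l ≠ D.M.c j))
      (fun l => (D.ev_ne l j).mono fun s hs => by rw [hs]) j
    have h3 := ev_bex (p := fun s l => !D.ne l i s)
      (r := fun l => !decide (D.M.c l ≠ D.M.c i))
      (fun l => (D.ev_ne l i).mono fun s hs => by rw [hs]) (j + 1)
    filter_upwards [h2, h3] with s h4 h5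
    show (!bex (fun l => !D.ne l j s) j && !bex (fun l => !D.ne l i s) (j + 1)) = _
    rw [h4, h5, Bool.eq_iff_iff, Bool.and_eq_true, Bool.not_eq_true', Bool.not_eq_true',
      ← Bool.not_eq_true, ← Bool.not_eq_true, bex_iff, bex_iff, decide_eq_true_iff]
    constructor
    · rintro ⟨h6, h7⟩
      refine ⟨fun l hl he => h6 ⟨l, hl, by simp [he]⟩, ?_⟩
      by_contra hc
      push Not at hc
      exact h7 ⟨D.fst i, by omega, by simp [D.c_fst i]⟩
    · rintro ⟨h6, h7⟩
      constructor
      · rintro ⟨l, hl, he⟩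
        have : D.M.c l = D.M.c j := by simpa using he
        exact h6 l hl this
      · rintro ⟨l, hl, he⟩
        have : D.M.c l = D.M.c i := by simpa using he
        exact D.fst_min (by omega) this
  have h2 := ev_cnt (p := fun s j => D.p3 (i, s) j)
    (r := fun j => decide (D.New j ∧ j < D.fst i)) h1 i
  refine h2.mono fun s hs => ?_
  show cnt (fun j => D.p3 (i, s) j) i = _
  rw [hs, cnt_eq_count]
  unfold u
  obtain ⟨m, hm⟩ := Nat.exists_eq_add_of_le (D.fst_le i)
  have key : ∀ m, Nat.count (fun k => decide (D.New k ∧ k < D.fst i) = true) (D.fst i + m) =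
      Nat.count D.New (D.fst i) := by
    intro m
    induction m with
    | zero =>
      rw [Nat.add_zero, Nat.count_eq_card_filter_range, Nat.count_eq_card_filter_range]
      congr 1
      apply Finset.filter_congr
      intro k hk
      have hk' := Finset.mem_range.1 hk
      simp [hk']
    | succ m ih =>
      rw [← Nat.add_assoc, Nat.count_succ, ih]
      simp
  have h3 := key m
  rw [← hm] at h3
  convert h3

end Disc

end Pool.Agent.L0h80.TC
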