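import Pool.Agent.Helper743.Lim
import Pool.Agent.H109R3.TC.Stmt

/-!
Bounded search and counting with computable predicates, and their limits.
-/

set_option autoImplicit false

namespace Pool.Agent.L0h80.TC

open Filter

/-- bounded existence -/
def bex (p : ℕ → Bool) (n : ℕ) : Bool := Nat.rec false (fun k ih => ih || p k) n

/-- bounded counting -/
def cnt (p : ℕ → Bool) (n : ℕ) : ℕ := Nat.rec 0 (fun k ih => ih + (p k).toNat) n

theorem bex_zero (p : ℕ → Bool) : bex p 0 = false := rfl
theorem bex_succ (p : ℕ → Bool) (n : ℕ) : bex p (n + 1) = (bex p n || p n) := rfl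
theorem cnt_zero (p : ℕ → Bool) : cnt p 0 = 0 := rfl
theorem cnt_succ (p : ℕ → Bool) (n : ℕ) : cnt p (n + 1) = cnt p n + (p n).toNat := rfl

theorem bex_iff (p : ℕ → Bool) (n : ℕ) : bex p n = true ↔ ∃ k < n, p k = true := by
  induction n with
  | zero => simp [bex_zero]
  | succ n ih =>
    rw [bex_succ, Bool.or_eq_true, ih]
    constructor
    · rintro (⟨k, hk, h⟩ | h)
      · exact ⟨k, by omega, h⟩
      · exact ⟨n, by omega, h⟩
    · rintro ⟨k, hk, h⟩
      rcases Nat.lt_succ_iff_lt_or_eq.1 hk with h1 | rfl
      · exact Or.inl ⟨k, h1, h⟩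
      · exact Or.inr h

theorem cnt_eq_count (p : ℕ → Bool) (n : ℕ) : cnt p n = Nat.count (fun k => p k = true) n := by
  induction n with
  | zero => rfl
  | succ n ih =>
    rw [cnt_succ, Nat.count_succ, ih]
    cases p n <;> simp

theorem comp_bex {α : Type} [Primcodable α] {p : α → ℕ → Bool} (hp : Computable₂ p) {n : α → ℕ}
    (hn : Computable n) : Computable fun a => bex (p a) (n a) := by
  unfold bex
  refine Computable.nat_rec (f := n) (g := fun _ => false)
    (h := fun a (q : ℕ × Bool) => (q.2 || p a q.1)) hn (Computable.const _) ?_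
  exact Primrec.or.to_comp.comp (Computable.snd.comp Computable.snd)
    (hp.comp Computable.fst (Computable.fst.comp Computable.snd))

theorem comp_cnt {α : Type} [Primcodable α] {p : α → ℕ → Bool} (hp : Computable₂ p) {n : α → ℕ}
    (hn : Computable n) : Computable fun a => cnt (p a) (n a) := by
  unfold cnt
  refine Computable.nat_rec (f := n) (g := fun _ => 0)
    (h := fun a (q : ℕ × ℕ) => (q.2 + (p a q.1).toNat)) hn (Computable.const _) ?_
  have h1 : Computable (fun b : Bool => b.toNat) :=
    (Primrec.dom_finite (fun b : Bool => b.toNat)).to_comp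
  exact Primrec.nat_add.to_comp.comp (Computable.snd.comp Computable.snd)
    (h1.comp (hp.comp Computable.fst (Computable.fst.comp Computable.snd)))

theorem ev_bex {p : ℕ → ℕ → Bool} {r : ℕ → Bool} (h : ∀ k, ∀ᶠ s in atTop, p s k = r k) (n : ℕ) :
    ∀ᶠ s in atTop, bex (p s) n = bex r n := by
  induction n with
  | zero => exact Eventually.of_forall fun s => rfl
  | succ n ih =>
    filter_upwards [ih, h n] with s h1 h2
    rw [bex_succ, bex_succ, h1, h2]

theorem ev_cnt {p : ℕ → ℕ → Bool} {r : ℕ → Bool} (h : ∀ k, ∀ᶠ s in atTop, p s k = r k) (n : ℕ) :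
    ∀ᶠ s in atTop, cnt (p s) n = cnt r n := by
  induction n with
  | zero => exact Eventually.of_forall fun s => rfl
  | succ n ih =>
    filter_upwards [ih, h n] with s h1 h2
    rw [cnt_succ, cnt_succ, h1, h2]

/-- least number below `n` with property `p`, otherwise `n` -/
def lst (p : ℕ → Bool) (n : ℕ) : ℕ := cnt (fun j => !bex p (j + 1)) n

theorem lst_eq {p : ℕ → Bool} {n j : ℕ} (hj : j < n) (h : p j = true) (hm : ∀ i < j, p i = false) :
    lst p n = j := by
  have h1 : ∀ m, m ≤ j → cnt (fun j => !bex p (j + 1)) m = m := by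
    intro m
    induction m with
    | zero => intro _; rfl
    | succ m ih =>
      intro hmj
      rw [cnt_succ, ih (by omega)]
      have h2 : bex p (m + 1) = false := by
        rw [← Bool.not_eq_true, bex_iff]
        rintro ⟨k, hk, hk2⟩
        rw [hm k (by omega)] at hk2
        exact absurd hk2 (by simp)
      simp [h2]
  have h3 : ∀ m, cnt (fun j => !bex p (j + 1)) (j + m) = j := by
    intro m
    induction m with
    | zero => exact h1 j le_rfl
    | succ m ih =>
      rw [← Nat.add_assoc, cnt_succ, ih]
      have h2 : bex p (j + m + 1) = true := (bex_iff _ _).2 ⟨j, by omega, h⟩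
      simp [h2]
  obtain ⟨m, rfl⟩ := Nat.exists_eq_add_of_le hj.le
  exact h3 m

theorem comp_lst {α : Type} [Primcodable α] {p : α → ℕ → Bool} (hp : Computable₂ p) {n : α → ℕ}
    (hn : Computable n) : Computable fun a => lst (p a) (n a) := by
  unfold lst
  refine comp_cnt (p := fun a j => !bex (p a) (j + 1)) ?_ hn
  refine Primrec.not.to_comp.comp ?_
  refine comp_bex (α := α × ℕ) (p := fun q => p q.1) (n := fun q => q.2 + 1) ?_ ?_
  · exact hp.comp (Computable.fst.comp Computable.fst) Computable.snd
  · exact Computable.succ.comp Computable.snd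

/-- limits along a moving bound -/
theorem ev_lst {p : ℕ → ℕ → Bool} {r : ℕ → Bool} (h : ∀ k, ∀ᶠ s in atTop, p s k = r k) {j : ℕ}
    (hj : r j = true) (hm : ∀ i < j, r i = false) : ∀ᶠ s in atTop, lst (p s) s = j := by
  have h1 : ∀ᶠ s in atTop, ∀ i < j, p s i = false := by
    have : ∀ m ≤ j, ∀ᶠ s in atTop, ∀ i < m, p s i = false := by
      intro m
      induction m with
      | zero => intro _; exact Eventually.of_forall fun s i hi => absurd hi (by omega)
      | succ m ih =>
        intro hmj
        filter_upwards [ih (by omega), h m] with s h1 h2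
        intro i hi
        rcases Nat.lt_succ_iff_lt_or_eq.1 hi with h3 | rfl
        · exact h1 i h3
        · rw [h2]; exact hm _ (by omega)
    exact this j le_rfl
  filter_upwards [h1, h j, eventually_gt_atTop j] with s h2 h3 h4
  exact lst_eq h4 (h3.trans hj) h2

/-- functions with a computable approximation are recursive in the halting function -/
theorem tr_K {f : ℕ → ℕ} {g : ℕ → ℕ → ℕ} (hg : Computable₂ g)
    (h : ∀ k, ∀ᶠ s in atTop, g k s = f k) : Pool.Agent.Helper743.TR f Pool.Agent.Helper743.K := by
  refine Pool.Agent.Helper743.LimC.TR_K ⟨g, hg, fun k => ?_⟩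
  obtain ⟨s0, hs⟩ := eventually_atTop.1 (h k)
  exact ⟨s0, hs⟩

end Pool.Agent.L0h80.TC
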