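import Pool.Agent.L0h80.TC.Up
import Pool.Agent.Helper583.TCJ14

/-!
A presentation of the discrete space `ℕ` from which the halting function can be read off.
-/

set_option autoImplicit false
set_option maxHeartbeats 400000

namespace Pool.Agent.L0h80.TC

open Filter Topology
open Pool.Agent.Helper583.TT (CMS IsName pre)
open Pool.Agent.Helper583.TC (orc Red)
open Pool.Agent.Helper743 (TR K hlt')
open Pool.Agent.H109R3.TC (CompMapIn Cat CatBoth)

/-! ### The standard presentation -/

/-- the distance of natural numbers -/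
def nd (x y : ℕ) : ℕ := (x - y) + (y - x)

theorem nd_cast (x y : ℕ) : ((nd x y : ℕ) : ℝ) = |(x : ℝ) - y| := by
  unfold nd
  rcases le_total x y with h | h
  · have h1 : x - y = 0 := by omega
    rw [h1, zero_add, Nat.cast_sub h, abs_sub_comm, abs_of_nonneg]
    have : (x : ℝ) ≤ y := by exact_mod_cast h
    linarith
  · have h1 : y - x = 0 := by omega
    rw [h1, add_zero, Nat.cast_sub h, abs_of_nonneg]
    have : (y : ℝ) ≤ x := by exact_mod_cast h
    linarith

theorem primrec_nd : Primrec₂ nd := by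
  have h1 : Primrec (fun z : ℕ × ℕ => z.1 - z.2) := Primrec.nat_sub.comp Primrec.fst Primrec.snd
  have h2 : Primrec (fun z : ℕ × ℕ => z.2 - z.1) := Primrec.nat_sub.comp Primrec.snd Primrec.fst
  have h3 := Primrec.nat_add.comp h1 h2
  exact h3

theorem primrec_two_pow : Primrec (fun n : ℕ => 2 ^ n) := by
  have := Primrec.nat_rec₁ (1 : ℕ) (f := fun _ ih => 2 * ih)
    (show Primrec₂ (fun (_ ih : ℕ) => 2 * ih) from
      Primrec.nat_mul.comp (Primrec.const 2) Primrec.snd)
  refine this.of_eq fun n => ?_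
  induction n with
  | zero => rfl
  | succ n ih => rw [pow_succ, mul_comm, ← ih]

/-- the standard presentation of `ℕ` -/
def N0 : CMS where
  Y := ℕ
  c := id
  dense := Function.surjective_id.denseRange
  comp := by
    refine ⟨fun z => nd z.1 z.2.1 * 2 ^ z.2.2, ?_, ?_⟩
    · have h1 : Primrec (fun z : ℕ × ℕ × ℕ => nd z.1 z.2.1) :=
        primrec_nd.comp Primrec.fst (Primrec.fst.comp Primrec.snd)
      exact (Primrec.nat_mul.comp h1
        (primrec_two_pow.comp (Primrec.snd.comp Primrec.snd))).to_comp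
    · intro i j k
      have h1 : (0 : ℝ) < 2 ^ k := by positivity
      simp only [id]
      rw [Nat.cast_mul, nd_cast, Nat.cast_pow, Nat.cast_ofNat, mul_div_assoc, div_self h1.ne',
        mul_one, Nat.dist_eq, sub_self, abs_zero]
      positivity

/-! ### The other presentation -/

theorem hlt'_mono {e t t' : ℕ} (h : t ≤ t') (ht : hlt' e t = true) : hlt' e t' = true := by
  unfold hlt' at ht ⊢
  rw [Option.isSome_iff_exists] at ht ⊢
  obtain ⟨y, hy⟩ := ht
  exact ⟨y, Nat.Partrec.Code.evaln_mono h hy⟩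

/-- the number of stages below `k` at which `e` has not halted -/
def st (e k : ℕ) : ℕ := cnt (fun t => !hlt' e t) k

theorem st_le (e k : ℕ) : st e k ≤ k := by
  unfold st
  rw [cnt_eq_count]
  exact Nat.count_le _

theorem st_eq {e S k : ℕ} (hS : hlt' e S = true) (hm : ∀ t < S, hlt' e t = false) (hk : S ≤ k) :
    st e k = S := by
  have h1 : ∀ m, m ≤ S → st e m = m := by
    intro m
    induction m with
    | zero => intro _; rfl
    | succ m ih =>
      intro h
      unfold st
      rw [cnt_succ]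
      have := ih (by omega)
      unfold st at this
      rw [this, hm m (by omega)]
      rfl
  obtain ⟨d, rfl⟩ := Nat.exists_eq_add_of_le hk
  induction d with
  | zero => exact h1 S le_rfl
  | succ d ih =>
    have h2 := ih (by omega)
    unfold st at h2 ⊢
    rw [← Nat.add_assoc, cnt_succ, h2, hlt'_mono (show S ≤ S + d by omega) hS]
    rfl

theorem st_eq_self {e k : ℕ} (hm : ∀ t < k, hlt' e t = false) : st e k = k := by
  induction k with
  | zero => rfl
  | succ k ih =>
    have h2 := ih (fun t ht => hm t (by omega))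
    unfold st at h2 ⊢
    rw [cnt_succ, h2, hm k (by omega)]
    rfl

open Classical in
/-- the small distances -/
noncomputable def v (e : ℕ) : ℝ :=
  if h : ∃ t, hlt' e t = true then 1 / 2 ^ (Nat.find h + 1) else 0

theorem v_nonneg (e : ℕ) : 0 ≤ v e := by
  unfold v
  split_ifs
  · positivity
  · exact le_rfl

theorem v_le (e : ℕ) : v e ≤ 1 / 2 := by
  unfold v
  split_ifs with h
  · have h1 : (1 : ℝ) ≤ 2 ^ (Nat.find h) := one_le_pow₀ (by norm_num)
    rw [pow_succ]
    exact div_le_div_of_nonneg_left (by norm_num) (by norm_num) (by linarith)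
  · norm_num

theorem v_pos_iff (e : ℕ) : 0 < v e ↔ ∃ t, hlt' e t = true := by
  unfold v
  split_ifs with h
  · exact ⟨fun _ => h, fun _ => by positivity⟩
  · exact ⟨fun h1 => absurd h1 (lt_irrefl _), fun h1 => absurd h1 h⟩

theorem K_eq_one_iff (e : ℕ) : K e = 1 ↔ ∃ t, hlt' e t = true := by
  obtain ⟨t0, ht0⟩ := Pool.Agent.Helper743.Kt_lim e
  unfold Pool.Agent.Helper743.Kt at ht0
  constructor
  · intro h
    refine ⟨t0, ?_⟩
    by_contra hc
    rw [Bool.not_eq_true] at hc
    have := ht0 t0 le_rfl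
    rw [hc, h] at this
    exact absurd this (by simp)
  · rintro ⟨t, ht⟩
    have := ht0 (max t0 t) (le_max_left _ _)
    rw [hlt'_mono (le_max_right t0 t) ht] at this
    exact this.symm

theorem K_zero_or_one (e : ℕ) : K e = 0 ∨ K e = 1 := by
  unfold K
  split_ifs
  · exact Or.inr rfl
  · exact Or.inl rfl

/-- the positions -/
noncomputable def cR (i : ℕ) : ℝ := (i / 2 : ℕ) + (if i % 2 = 1 then v (i / 2) else 0)

theorem cR_even (e : ℕ) : cR (2 * e) = e := by
  unfold cR
  have h1 : 2 * e % 2 = 0 := by omega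
  have h2 : 2 * e / 2 = e := by omega
  rw [h1, h2]
  simp

theorem cR_odd (e : ℕ) : cR (2 * e + 1) = e + v e := by
  unfold cR
  have h1 : (2 * e + 1) % 2 = 1 := by omega
  have h2 : (2 * e + 1) / 2 = e := by omega
  rw [h1, h2]
  simp

theorem le_cR (i : ℕ) : ((i / 2 : ℕ) : ℝ) ≤ cR i := by
  unfold cR
  split_ifs
  · linarith [v_nonneg (i / 2)]
  · linarith

/-- the approximations, multiplied by `2 ^ k` -/
def NN (i k : ℕ) : ℕ :=
  (i / 2) * 2 ^ k +
    (bif decide (i % 2 = 1) && decide (st (i / 2) k < k) then 2 ^ (k - 1 - st (i / 2) k) else 0)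

theorem comp_NN : Computable₂ NN := by
  have hst : Computable₂ st := by
    unfold st
    have h1 : Computable₂ (fun (z : ℕ × ℕ) (t : ℕ) => !hlt' z.1 t) := by
      have := Primrec.not.to_comp.comp (Computable₂.comp
        (Primrec₂.to_comp Pool.Agent.Helper743.hlt'_primrec)
        (Computable.fst.comp (Computable.fst (α := ℕ × ℕ) (β := ℕ)))
        (Computable.snd (α := ℕ × ℕ) (β := ℕ)))
      exact this
    have h2 := comp_cnt h1 Computable.snd
    exact h2
  have h2 : Computable (fun z : ℕ × ℕ => z.1 / 2) :=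
    (Primrec.nat_div.comp Primrec.fst (Primrec.const 2)).to_comp
  have h3 := Computable₂.comp hst h2 (Computable.snd (α := ℕ) (β := ℕ))
  have h4 : Computable (fun z : ℕ × ℕ => z.1 / 2 * 2 ^ z.2) :=
    (Primrec.nat_mul.comp (Primrec.nat_div.comp Primrec.fst (Primrec.const 2))
      (primrec_two_pow.comp Primrec.snd)).to_comp
  have h5 : Computable (fun z : ℕ × ℕ => decide (z.1 % 2 = 1)) :=
    (PrimrecPred.decide (Primrec.eq.comp (Primrec.nat_mod.comp Primrec.fst (Primrec.const 2))
      (Primrec.const 1))).to_comp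
  have h6 : Computable (fun z : ℕ × ℕ => decide (z.1 < z.2)) :=
    (PrimrecPred.decide (Primrec.nat_lt.comp Primrec.fst Primrec.snd)).to_comp
  have h7 := Computable.comp h6 (h3.pair (Computable.snd (α := ℕ) (β := ℕ)))
  have h8 := Primrec.and.to_comp.comp h5 h7
  have h9 : Computable (fun z : ℕ × ℕ => 2 ^ (z.2 - 1 - z.1)) :=
    (primrec_two_pow.comp (Primrec.nat_sub.comp (Primrec.nat_sub.comp Primrec.snd
      (Primrec.const 1)) Primrec.fst)).to_comp
  have h10 := Computable.comp h9 (h3.pair (Computable.snd (α := ℕ) (β := ℕ)))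
  have h11 := Computable.cond h8 h10 (Computable.const 0)
  have h12 := Primrec.nat_add.to_comp.comp h4 h11
  exact h12

theorem NN_app (i k : ℕ) : |cR i - (NN i k : ℝ) / 2 ^ k| ≤ 1 / 2 ^ (k + 1) := by
  classical
  have hp : (0 : ℝ) < 2 ^ k := by positivity
  have hmain : cR i - (NN i k : ℝ) / 2 ^ k =
      (if i % 2 = 1 then v (i / 2) else 0) -
      ((bif decide (i % 2 = 1) && decide (st (i / 2) k < k) then 2 ^ (k - 1 - st (i / 2) k)
        else 0 : ℕ) : ℝ) / 2 ^ k := by
    unfold cR NN
    rw [Nat.cast_add, Nat.cast_mul, Nat.cast_pow, Nat.cast_ofNat, add_div,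
      mul_div_assoc, div_self hp.ne', mul_one]
    ring
  rw [hmain]
  by_cases hi : i % 2 = 1
  · rw [if_pos hi]
    by_cases hh : ∃ t, hlt' (i / 2) t = true
    · by_cases hk : Nat.find hh < k
      · have h1 : st (i / 2) k = Nat.find hh :=
          st_eq (Nat.find_spec hh) (fun t ht => by
            have := Nat.find_min hh ht
            rwa [Bool.not_eq_true] at this) hk.le
        have h2 : v (i / 2) = 1 / 2 ^ (Nat.find hh + 1) := by
          unfold v
          rw [dif_pos hh]
        rw [h1, h2]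
        simp only [hi, hk, decide_true, Bool.and_self, cond_true]
        rw [Nat.cast_pow, Nat.cast_ofNat]
        obtain ⟨d, hd⟩ := Nat.exists_eq_add_of_lt hk
        have h3 : k - 1 - Nat.find hh = d := by omega
        rw [h3]
        have h4 : (2 : ℝ) ^ k = 2 ^ (Nat.find hh + 1) * 2 ^ d := by
          rw [← pow_add]
          congr 1
          omega
        rw [h4, div_mul_eq_div_div_swap]
        rw [div_self (by positivity : (2 : ℝ) ^ d ≠ 0), sub_self, abs_zero]
        positivity
      · have h1 : st (i / 2) k = k := by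
          refine st_eq_self fun t ht => ?_
          have := Nat.find_min hh (show t < Nat.find hh by omega)
          rwa [Bool.not_eq_true] at this
        have h2 : v (i / 2) = 1 / 2 ^ (Nat.find hh + 1) := by
          unfold v
          rw [dif_pos hh]
        rw [h1, h2]
        simp only [lt_self_iff_false, decide_false, Bool.and_false, cond_false, Nat.cast_zero,
          zero_div, sub_zero]
        rw [abs_of_nonneg (by positivity)]
        exact one_div_pow_le_one_div_pow_of_le (by norm_num) (by omega)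
    · have h1 : st (i / 2) k = k := by
        refine st_eq_self fun t ht => ?_
        have h2 := not_exists.1 hh t
        rwa [Bool.not_eq_true] at h2
      have h2 : v (i / 2) = 0 := by
        unfold v
        rw [dif_neg hh]
      rw [h1, h2]
      simp only [lt_self_iff_false, decide_false, Bool.and_false, cond_false, Nat.cast_zero,
        zero_div, sub_zero, abs_zero]
      positivity
  · rw [if_neg hi]
    simp only [hi, decide_false, Bool.false_and, cond_false, Nat.cast_zero, zero_div, sub_zero,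
      abs_zero]
    positivity

theorem lf (s : Set ℕ) : LocallyFinite (fun i : s => ({cR i.1} : Set ℝ)) := by
  intro x
  refine ⟨Metric.ball x 1, Metric.ball_mem_nhds x one_pos, ?_⟩
  obtain ⟨B, hB⟩ := exists_nat_gt (x + 1)
  have hfin : {i : ℕ | i < 2 * B + 2}.Finite := Set.finite_lt_nat _
  refine Set.Finite.subset (hfin.preimage (Subtype.val_injective.injOn)) ?_
  rintro ⟨i, hi⟩ ⟨y, hy1, hy2⟩
  rw [Set.mem_singleton_iff] at hy1
  subst hy1
  rw [Metric.mem_ball, Real.dist_eq, abs_lt] at hy2
  have h1 := le_cR i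
  have h2 : ((i / 2 : ℕ) : ℝ) < B := by
    simp only at hy2
    linarith [hy2.2]
  have h3 : i / 2 < B := by exact_mod_cast h2
  show i < 2 * B + 2
  omega

theorem closed_image (s : Set ℕ) : IsClosed (cR '' s) := by
  have h1 := (lf s).isClosed_iUnion (fun i => isClosed_singleton)
  have h2 : (⋃ i : s, ({cR i.1} : Set ℝ)) = cR '' s := by
    ext x
    simp [eq_comm]
  rwa [h2] at h1

instance : CompleteSpace (Set.range cR) := by
  rw [← Set.image_univ]
  exact (closed_image Set.univ).completeSpace_coe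

instance : DiscreteTopology (Set.range cR) := by
  rw [discreteTopology_iff_forall_isClosed]
  intro s
  have h1 : IsClosed (cR '' {i | (⟨cR i, i, rfl⟩ : Set.range cR) ∈ s}) := closed_image _
  have h2 : s = Subtype.val ⁻¹' (cR '' {i | (⟨cR i, i, rfl⟩ : Set.range cR) ∈ s}) := by
    ext ⟨x, i, rfl⟩
    simp only [Set.mem_preimage, Set.mem_image, Set.mem_ofPred_eq]
    constructor
    · intro h
      exact ⟨i, h, rfl⟩
    · rintro ⟨j, hj, hj2⟩
      have : (⟨cR j, j, rfl⟩ : Set.range cR) = ⟨cR i, i, rfl⟩ := Subtype.ext hj2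
      rw [← this]
      exact hj
  rw [h2]
  exact h1.preimage continuous_subtype_val

instance : Infinite (Set.range cR) := by
  refine Infinite.of_injective (fun n : ℕ => (⟨cR (2 * n), 2 * n, rfl⟩ : Set.range cR)) ?_
  intro m n h
  have h1 := congrArg Subtype.val h
  simp only [cR_even] at h1
  exact_mod_cast h1

/-- the other presentation -/
noncomputable def M1 : CMS where
  Y := Set.range cR
  c := fun i => ⟨cR i, i, rfl⟩
  dense := by
    refine Function.Surjective.denseRange ?_
    rintro ⟨x, i, rfl⟩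
    exact ⟨i, rfl⟩
  comp := by
    refine ⟨fun z => nd (NN z.1 z.2.2) (NN z.2.1 z.2.2), ?_, ?_⟩
    · have h1 := Computable₂.comp comp_NN (Computable.fst (α := ℕ) (β := ℕ × ℕ))
        (Computable.snd.comp (Computable.snd (α := ℕ) (β := ℕ × ℕ)))
      have h2 := Computable₂.comp comp_NN
        (Computable.fst.comp (Computable.snd (α := ℕ) (β := ℕ × ℕ)))
        (Computable.snd.comp (Computable.snd (α := ℕ) (β := ℕ × ℕ)))
      exact Computable₂.comp (Primrec₂.to_comp primrec_nd) h1 h2
    · intro i j k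
      have h1 := NN_app i k
      have h2 := NN_app j k
      have hp : (0 : ℝ) < 2 ^ k := by positivity
      simp only
      rw [nd_cast]
      have h3 : |(NN i k : ℝ) - NN j k| / 2 ^ k = |(NN i k : ℝ) / 2 ^ k - (NN j k : ℝ) / 2 ^ k| := by
        rw [← sub_div, abs_div, abs_of_pos hp]
      rw [h3, Subtype.dist_eq, Real.dist_eq]
      refine le_trans (abs_abs_sub_abs_le_abs_sub _ _) ?_
      have h4 : cR i - cR j - ((NN i k : ℝ) / 2 ^ k - (NN j k : ℝ) / 2 ^ k) =
          (cR i - (NN i k : ℝ) / 2 ^ k) - (cR j - (NN j k : ℝ) / 2 ^ k) := by ring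
      rw [h4]
      refine le_trans (abs_sub _ _) ?_
      have h5 : (1 : ℝ) / 2 ^ k = 1 / 2 ^ (k + 1) + 1 / 2 ^ (k + 1) := by
        rw [pow_succ]
        field_simp
        norm_num
      rw [h5]
      exact add_le_add h1 h2

theorem M1_homeo : Nonempty (M1.Y ≃ₜ ℕ) := by
  have : Countable (Set.range cR) := (Set.countable_range cR).to_subtype
  obtain ⟨e⟩ := nonempty_equiv_of_countable (α := Set.range cR) (β := ℕ)
  have h : Nonempty (Set.range cR ≃ₜ ℕ) :=
    ⟨{ toEquiv := e
       continuous_toFun := continuous_of_discreteTopology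
       continuous_invFun := continuous_of_discreteTopology }⟩
  exact h

theorem N0_homeo : Nonempty (N0.Y ≃ₜ ℕ) := ⟨Homeomorph.refl ℕ⟩

theorem c_eq_iff (e : ℕ) : M1.c (2 * e) = M1.c (2 * e + 1) ↔ K e = 0 := by
  have h1 : M1.c (2 * e) = M1.c (2 * e + 1) ↔ cR (2 * e) = cR (2 * e + 1) := Subtype.ext_iff
  rw [h1, cR_even, cR_odd]
  have h2 := v_pos_iff e
  have h3 := K_eq_one_iff e
  have h4 := v_nonneg e
  rcases K_zero_or_one e with h | h
  · have h5 : ¬ 0 < v e := by
      rw [h2, ← h3, h]
      norm_num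
    constructor
    · intro _; exact h
    · intro _
      linarith
  · have h5 : 0 < v e := h2.2 (h3.1 h)
    constructor
    · intro h6
      linarith
    · intro h6
      rw [h] at h6
      exact absurd h6 one_ne_zero

/-- points of the standard presentation are natural numbers -/
def toN (x : N0.Y) : ℕ := x

theorem toN_inj {x y : N0.Y} (h : toN x = toN y) : x = y := h

theorem toN_dist (m : ℕ) (x : N0.Y) : dist (N0.c m) x = |(m : ℝ) - (toN x : ℝ)| := rfl

theorem red_of_compMap {a : ℕ → ℕ} {h : M1.Y ≃ₜ N0.Y} (hc : CompMapIn a M1 N0 h) : Red K a := by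
  obtain ⟨φ, hφ, hφ2⟩ := hc
  have hf := Pool.Agent.Helper583.TC.J14.recIn_comp hφ
    (Pool.Agent.Helper583.TC.J14.comp_u id Computable.id 1)
  obtain ⟨G, hG, hG1, hG2⟩ := Pool.Agent.Helper583.TC.J2.select hf
  have key : ∀ i, G i = Part.some (toN (h (M1.c i))) := by
    intro i
    obtain ⟨q, hq, hq2⟩ := hφ2 (M1.c i) (fun _ => i) (fun j => by
      rw [dist_self]; positivity)
    obtain ⟨⟨r, hr⟩, huniq⟩ := hq2 1
    have hdom : (G i).Dom := hG2 i r (Part.dom_iff_mem.2 ⟨q 1, hr⟩)
    obtain ⟨m, hm⟩ := Part.dom_iff_mem.1 hdom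
    obtain ⟨r', hr'⟩ := hG1 i m hm
    have hmq : m = q 1 := huniq r' m hr'
    have h1 : q 1 = toN (h (M1.c i)) := by
      have h2 := hq 1
      rw [toN_dist, ← nd_cast] at h2
      have h3 : ((nd (q 1) (toN (h (M1.c i))) : ℕ) : ℝ) < 1 := by
        refine lt_of_le_of_lt h2 ?_
        norm_num
      have h4 : nd (q 1) (toN (h (M1.c i))) < 1 := by exact_mod_cast h3
      unfold nd at h4
      omega
    rw [← h1, ← hmq]
    exact Part.eq_some_iff.2 hm
  have hH : Pool.Agent.Helper743.RecT {orc a} (fun i => toN (h (M1.c i))) :=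
    hG.of_eq key
  have h2 : Pool.Agent.Helper743.RecT {orc a} (fun e : ℕ => 2 * e) :=
    Pool.Agent.Helper743.Computable.recT
      (Primrec.nat_mul.comp (Primrec.const 2) Primrec.id).to_comp
  have h3 : Pool.Agent.Helper743.RecT {orc a} (fun e : ℕ => 2 * e + 1) :=
    Pool.Agent.Helper743.Computable.recT
      (Primrec.succ.comp (Primrec.nat_mul.comp (Primrec.const 2) Primrec.id)).to_comp
  have h4 : Pool.Agent.Helper743.RecT {orc a}
      (fun z : ℕ => bif decide (z.unpair.1 = z.unpair.2) then 0 else 1) := by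
    refine Pool.Agent.Helper743.Computable.recT ?_
    exact Computable.cond (PrimrecPred.decide (Primrec.eq.comp
      (Primrec.fst.comp Primrec.unpair) (Primrec.snd.comp Primrec.unpair))).to_comp
      (Computable.const 0) (Computable.const 1)
  have h5 := h4.comp ((hH.comp h2).pair (hH.comp h3))
  refine Nat.RecursiveIn.of_eq h5 fun e => ?_
  show Part.some _ = Part.some (K e)
  congr 1
  simp only [Nat.unpair_pair]
  have h6 := c_eq_iff e
  by_cases hK : K e = 0
  · rw [hK, h6.2 hK]
    simp
  · have h7 : toN (h (M1.c (2 * e))) ≠ toN (h (M1.c (2 * e + 1))) := by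
      intro h8
      exact hK (h6.1 (h.injective (toN_inj h8)))
    rw [decide_eq_false h7]
    rcases K_zero_or_one e with h9 | h9
    · exact absurd h9 hK
    · rw [h9]; rfl

theorem red_of_cat {a : ℕ → ℕ} (hc : Cat ℕ a) : Red K a := by
  obtain ⟨h, hh⟩ := hc M1 N0 M1_homeo N0_homeo
  exact red_of_compMap hh

/-! ### The upper bound -/

/-- a presentation of `ℕ` -/
theorem exists_disc (M : CMS) (h : Nonempty (M.Y ≃ₜ ℕ)) : ∃ D : Disc, D.M = M := by
  obtain ⟨e⟩ := h
  obtain ⟨q, hq, hq2⟩ := M.comp
  refine ⟨⟨M, ?_, ?_, q, hq, hq2⟩, rfl⟩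
  · exact e.symm.discreteTopology
  · exact Infinite.of_injective e.symm e.symm.injective

theorem catBoth_K : CatBoth ℕ K := by
  intro M N hM hN
  obtain ⟨D, rfl⟩ := exists_disc M hM
  obtain ⟨E, rfl⟩ := exists_disc N hN
  refine ⟨D.hom E, D.compMap E, ?_⟩
  rw [Disc.hom_symm]
  exact E.compMap D

theorem main_N : (∃ M : CMS, Nonempty (M.Y ≃ₜ ℕ)) ∧ CatBoth ℕ K ∧
    ∀ a : ℕ → ℕ, Cat ℕ a → Red K a :=
  ⟨⟨N0, N0_homeo⟩, catBoth_K, fun _ h => red_of_cat h⟩

end Pool.Agent.L0h80.TC
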