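import Pool.Agent.L0h80.TC.Disc

/-!
Infinite discrete spaces are categorical relative to the halting problem.
-/

set_option autoImplicit false
set_option maxHeartbeats 400000

namespace Pool.Agent.L0h80.TC

open Filter Topology
open Pool.Agent.Helper583.TT (CMS IsName pre)
open Pool.Agent.Helper583.TC (orc Red)
open Pool.Agent.Helper583.TC.J2 (srchO srchO_some srchO_ne primrec_srchO)
open Pool.Agent.Helper743 (TR K)
open Pool.Agent.H109R3.TC (CompMapIn)

namespace Disc

variable (D E : Disc)

/-- the name in `E` of the point of the same rank -/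
noncomputable def T (i : ℕ) : ℕ := open Classical in Nat.find (E.u_surj (D.u i))

theorem T_spec (i : ℕ) : E.u (T D E i) = D.u i := by
  classical
  exact Nat.find_spec (E.u_surj (D.u i))

theorem T_min {i j : ℕ} (h : j < T D E i) : E.u j ≠ D.u i := by
  classical
  exact Nat.find_min (E.u_surj (D.u i)) h

theorem T_congr {i j : ℕ} (h : D.M.c i = D.M.c j) : T D E i = T D E j := by
  have h1 : D.u i = D.u j := D.u_eq_iff.2 h
  apply le_antisymm
  · by_contra hc
    push Not at hc
    exact T_min D E hc (by rw [T_spec, h1])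
  · by_contra hc
    push Not at hc
    exact T_min D E hc (by rw [T_spec, h1])

/-- approximation of `T` -/
def Ta (i s : ℕ) : ℕ := lst (fun j => decide (E.ua j s = D.ua i s)) s

theorem comp_Ta : Computable₂ (Ta D E) := by
  have g1 := Computable.comp₂ (f := fun z : ℕ × ℕ => E.ua z.1 z.2) E.comp_ua
    (show Computable₂ (fun (z : ℕ × ℕ) (j : ℕ) => (j, z.2)) from
      Computable.snd.pair (Computable.snd.comp Computable.fst))
  have g2 := Computable.comp₂ (f := fun z : ℕ × ℕ => D.ua z.1 z.2) D.comp_ua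
    (show Computable₂ (fun (z : ℕ × ℕ) (j : ℕ) => (z.1, z.2)) from
      (Computable.fst.comp Computable.fst).pair (Computable.snd.comp Computable.fst))
  have g3 : Computable (fun z : ℕ × ℕ => decide (z.1 = z.2)) :=
    (PrimrecRel.decide (Primrec.eq (α := ℕ))).to_comp
  have g4 := Computable.comp g3 (Computable.pair g1 g2)
  have g5 : Computable₂ (fun (z : ℕ × ℕ) (j : ℕ) => decide (E.ua j z.2 = D.ua z.1 z.2)) := g4
  have g6 := comp_lst g5 Computable.snd
  exact g6

theorem ev_Ta (i : ℕ) : ∀ᶠ s in atTop, Ta D E i s = T D E i := by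
  have h1 : ∀ j, ∀ᶠ s in atTop, decide (E.ua j s = D.ua i s) = decide (E.u j = D.u i) := by
    intro j
    filter_upwards [E.ev_ua j, D.ev_ua i] with s h2 h3
    rw [h2, h3]
  exact ev_lst (p := fun s j => decide (E.ua j s = D.ua i s)) (r := fun j => decide (E.u j = D.u i))
    h1 (decide_eq_true (T_spec D E i)) (fun j hj => decide_eq_false (T_min D E hj))

/-- the ball of radius `2 / 2 ^ k` about `c i` contains no other point -/
def Iso (i k : ℕ) : Prop := ∀ j, dist (D.M.c i) (D.M.c j) < 2 / 2 ^ k → D.M.c i = D.M.c j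

/-- a test for another point in the ball -/
def tst (z : (ℕ × ℕ) × ℕ × ℕ) : Bool :=
  decide (2 ≤ D.q (z.1.1, z.2.1, z.2.2)) &&
    decide ((D.q (z.1.1, z.2.1, z.2.2) + 1) * 2 ^ z.1.2 < 2 * 2 ^ z.2.2)

theorem comp_tst : Computable D.tst := by
  have g1 : Computable (fun z : (ℕ × ℕ) × ℕ × ℕ => (z.1.1, z.2.1, z.2.2)) :=
    (Computable.fst.comp Computable.fst).pair
      ((Computable.fst.comp Computable.snd).pair (Computable.snd.comp Computable.snd))
  have g2 := Computable.comp D.hq g1
  have g3 : Computable (fun n : ℕ => decide (2 ≤ n)) :=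
    (PrimrecPred.decide (Primrec.nat_le.comp (Primrec.const 2) Primrec.id)).to_comp
  have g4 := Computable.comp g3 g2
  have hpow : Primrec (fun n : ℕ => 2 ^ n) := by
    have := Primrec.nat_rec₁ (1 : ℕ) (f := fun _ ih => 2 * ih)
      (show Primrec₂ (fun (_ ih : ℕ) => 2 * ih) from
        Primrec.nat_mul.comp (Primrec.const 2) Primrec.snd)
    refine this.of_eq fun n => ?_
    induction n with
    | zero => rfl
    | succ n ih => rw [pow_succ, mul_comm, ← ih]
  have g5 : Computable (fun w : ℕ × ℕ × ℕ => decide ((w.1 + 1) * 2 ^ w.2.1 < 2 * 2 ^ w.2.2)) := by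
    have h1 : Primrec (fun w : ℕ × ℕ × ℕ => (w.1 + 1) * 2 ^ w.2.1) :=
      Primrec.nat_mul.comp (Primrec.succ.comp Primrec.fst)
        (hpow.comp (Primrec.fst.comp Primrec.snd))
    have h2 : Primrec (fun w : ℕ × ℕ × ℕ => 2 * 2 ^ w.2.2) :=
      Primrec.nat_mul.comp (Primrec.const 2) (hpow.comp (Primrec.snd.comp Primrec.snd))
    exact (PrimrecPred.decide (Primrec.nat_lt.comp h1 h2)).to_comp
  have g6 : Computable (fun z : (ℕ × ℕ) × ℕ × ℕ =>
      (D.q (z.1.1, z.2.1, z.2.2), z.1.2, z.2.2)) :=
    g2.pair ((Computable.snd.comp Computable.fst).pair (Computable.snd.comp Computable.snd))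
  have g7 := Computable.comp g5 g6
  have g8 := Primrec.and.to_comp.comp g4 g7
  exact g8

/-- approximation of the negation of `Iso` -/
def bada (i k s : ℕ) : Bool := bex (fun j => bex (fun t => D.tst ((i, k), (j, t))) s) s

theorem comp_bada : Computable (fun z : (ℕ × ℕ) × ℕ => D.bada z.1.1 z.1.2 z.2) := by
  have g1 : Computable (fun v : (((ℕ × ℕ) × ℕ) × ℕ) × ℕ => (v.1.1.1, (v.1.2, v.2))) :=
    (Computable.fst.comp (Computable.fst.comp Computable.fst)).pair
      ((Computable.snd.comp Computable.fst).pair Computable.snd)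
  have g2 := Computable.comp D.comp_tst g1
  have g3 : Computable₂ (fun (w : ((ℕ × ℕ) × ℕ) × ℕ) (t : ℕ) => D.tst (w.1.1, (w.2, t))) := g2
  have g4 := comp_bex g3 (Computable.snd.comp Computable.fst)
  have g5 : Computable₂ (fun (z : (ℕ × ℕ) × ℕ) (j : ℕ) =>
    bex (fun t => D.tst (z.1, (j, t))) z.2) := g4
  have g6 := comp_bex g5 Computable.snd
  exact g6

open Classical in
theorem ev_bada (i k : ℕ) : ∀ᶠ s in atTop, D.bada i k s = decide (¬ D.Iso i k) := by
  have hs : ∀ s, D.bada i k s = true → ¬ D.Iso i k := by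
    intro s hs hI
    unfold bada at hs
    rw [bex_iff] at hs
    obtain ⟨j, -, hj⟩ := hs
    rw [bex_iff] at hj
    obtain ⟨t, -, ht⟩ := hj
    unfold tst at ht
    rw [Bool.and_eq_true, decide_eq_true_iff, decide_eq_true_iff] at ht
    obtain ⟨h1, h2⟩ := ht
    simp only at h1 h2
    refine D.sound h1 (hI j ?_)
    have h3 := (abs_le.1 (D.happ i j t)).2
    have h4 : ((D.q (i, j, t) : ℝ) + 1) * 2 ^ k < 2 * 2 ^ t := by exact_mod_cast h2
    have h5 : (0 : ℝ) < 2 ^ k := by positivity
    have h6 : (0 : ℝ) < 2 ^ t := by positivity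
    have h7 : ((D.q (i, j, t) : ℝ) + 1) / 2 ^ t < 2 / 2 ^ k := by
      rw [div_lt_div_iff₀ h6 h5]
      exact h4
    rw [add_div] at h7
    linarith
  by_cases hI : D.Iso i k
  · refine Eventually.of_forall fun s => ?_
    have h1 : D.bada i k s = false := by
      rw [← Bool.not_eq_true]
      exact fun h => hs s h hI
    rw [h1]
    simp [hI]
  · have hI' := hI
    unfold Iso at hI'
    push Not at hI'
    obtain ⟨j, hj1, hj2⟩ := hI'
    obtain ⟨k0, hk0⟩ := D.exists_two hj2
    obtain ⟨t0, ht0⟩ := exists_pow_lt_of_lt_one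
      (show 0 < (2 / 2 ^ k - dist (D.M.c i) (D.M.c j)) / 2 by linarith)
      (show (1 / 2 : ℝ) < 1 by norm_num)
    have hx : D.tst ((i, k), (j, max k0 t0)) = true := by
      unfold tst
      rw [Bool.and_eq_true, decide_eq_true_iff, decide_eq_true_iff]
      refine ⟨hk0 _ (le_max_left _ _), ?_⟩
      have h3 := (abs_le.1 (D.happ i j (max k0 t0))).1
      have h4 : (1 / 2 : ℝ) ^ (max k0 t0) ≤ (1 / 2 : ℝ) ^ t0 :=
        pow_le_pow_of_le_one (by norm_num) (by norm_num) (le_max_right _ _)
      have h5 : (1 : ℝ) / 2 ^ (max k0 t0) = (1 / 2 : ℝ) ^ (max k0 t0) := by rw [one_div_pow]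
      have h6 : (0 : ℝ) < 2 ^ k := by positivity
      have h7 : (0 : ℝ) < 2 ^ (max k0 t0) := by positivity
      have h8 : ((D.q (i, j, max k0 t0) : ℝ) + 1) / 2 ^ (max k0 t0) < 2 / 2 ^ k := by
        rw [add_div, h5]
        rw [h5] at h3
        linarith
      rw [div_lt_div_iff₀ h7 h6] at h8
      exact_mod_cast h8
    filter_upwards [eventually_gt_atTop j, eventually_gt_atTop (max k0 t0)] with s h1 h2
    have h3 : D.bada i k s = true := by
      unfold bada
      rw [bex_iff]
      refine ⟨j, h1, ?_⟩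
      rw [bex_iff]
      exact ⟨_, h2, hx⟩
    rw [h3]
    simp [hI]

open Classical in
/-- the oracle -/
noncomputable def b (n : ℕ) : ℕ :=
  bif (n % 2 == 0) then (if D.Iso (n / 2).unpair.1 (n / 2).unpair.2 then 1 else 0)
  else T D E (n / 2)

/-- its approximation -/
def ba (n s : ℕ) : ℕ :=
  bif (n % 2 == 0) then (bif D.bada (n / 2).unpair.1 (n / 2).unpair.2 s then 0 else 1)
  else Ta D E (n / 2) s

theorem comp_ba : Computable₂ (ba D E) := by
  have h2 : Computable (fun n : ℕ => n / 2) :=
    (Primrec.nat_div.comp Primrec.id (Primrec.const 2)).to_comp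
  have g1 : Computable (fun z : ℕ × ℕ => (z.1 % 2 == 0)) :=
    (Primrec.beq.comp (Primrec.nat_mod.comp Primrec.fst (Primrec.const 2))
      (Primrec.const 0)).to_comp
  have g2 : Computable (fun z : ℕ × ℕ =>
      (((z.1 / 2).unpair.1, (z.1 / 2).unpair.2), z.2)) :=
    ((Computable.unpair.comp (h2.comp Computable.fst)).of_eq (fun z => rfl)).pair Computable.snd
  have g3 := Computable.comp D.comp_bada g2
  have g4 := Computable.cond g3 (Computable.const 0) (Computable.const 1)
  have g5 := Computable₂.comp (comp_Ta D E) (h2.comp Computable.fst) (Computable.snd (α := ℕ))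
  have g6 := Computable.cond g1 g4 g5
  exact g6

theorem ev_ba (n : ℕ) : ∀ᶠ s in atTop, ba D E n s = b D E n := by
  classical
  filter_upwards [ev_Ta D E (n / 2), D.ev_bada (n / 2).unpair.1 (n / 2).unpair.2] with s h1 h2
  unfold ba b
  rw [h1, h2]
  by_cases hI : D.Iso (n / 2).unpair.1 (n / 2).unpair.2 <;> simp [hI]

theorem red_b : Red (b D E) K := tr_K (comp_ba D E) (ev_ba D E)

theorem b_even (i k : ℕ) : b D E (2 * Nat.pair i k) = 1 ↔ D.Iso i k := by
  classical
  unfold b
  have h1 : 2 * Nat.pair i k % 2 = 0 := by omega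
  have h2 : 2 * Nat.pair i k / 2 = Nat.pair i k := by omega
  rw [h1, h2, Nat.unpair_pair]
  simp

theorem b_odd (i : ℕ) : b D E (2 * i + 1) = T D E i := by
  unfold b
  have h1 : (2 * i + 1) % 2 = 1 := by omega
  have h2 : (2 * i + 1) / 2 = i := by omega
  rw [h1, h2]
  simp

/-! ### The homeomorphism -/

/-- the rank of a point -/
noncomputable def rk (x : D.M.Y) : ℕ := D.u (D.surj x).choose

theorem rk_c (i : ℕ) : D.rk (D.M.c i) = D.u i := D.u_eq_iff.2 (D.surj (D.M.c i)).choose_spec

theorem rk_bij : Function.Bijective D.rk := by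
  constructor
  · intro x y h
    obtain ⟨i, rfl⟩ := D.surj x
    obtain ⟨j, rfl⟩ := D.surj y
    rw [rk_c, rk_c] at h
    exact D.u_eq_iff.1 h
  · intro m
    obtain ⟨i, hi⟩ := D.u_surj m
    exact ⟨D.M.c i, by rw [rk_c, hi]⟩

/-- the bijection with the natural numbers -/
noncomputable def rkE : D.M.Y ≃ ℕ := Equiv.ofBijective D.rk D.rk_bij

/-- the homeomorphism which preserves the ranks -/
noncomputable def hom : D.M.Y ≃ₜ E.M.Y :=
  haveI := D.disc
  haveI := E.disc
  { toEquiv := (D.rkE).trans (E.rkE).symm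
    continuous_toFun := continuous_of_discreteTopology
    continuous_invFun := continuous_of_discreteTopology }

theorem hom_symm : (hom D E).symm = hom E D := by
  apply Homeomorph.ext
  intro x
  rfl

theorem hom_c (i : ℕ) : hom D E (D.M.c i) = E.M.c (T D E i) := by
  show (E.rkE).symm (D.rk (D.M.c i)) = _
  rw [Equiv.symm_apply_eq]
  show _ = E.rk _
  rw [rk_c, rk_c, T_spec]

/-- one step of the search -/
def stp (s w : List ℕ) (k : ℕ) : Option ℕ :=
  bif decide (s[2 * Nat.pair (w.getD k 0) k]? = some 1) then s[2 * w.getD k 0 + 1]? else none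

/-- the search -/
def FF (s : List ℕ) (p : List ℕ × ℕ) : Option ℕ := srchO (stp s p.1) p.1.length

theorem primrec_stp : Primrec (fun z : (List ℕ × List ℕ) × ℕ => stp z.1.1 z.1.2 z.2) := by
  have h1 : Primrec (fun z : (List ℕ × List ℕ) × ℕ => z.1.2.getD z.2 0) :=
    (Primrec.list_getD 0).comp (Primrec.snd.comp Primrec.fst) Primrec.snd
  have h2 : Primrec (fun z : (List ℕ × List ℕ) × ℕ =>
      z.1.1[2 * Nat.pair (z.1.2.getD z.2 0) z.2]?) :=
    Primrec.list_getElem?.comp (Primrec.fst.comp Primrec.fst)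
      (Primrec.nat_mul.comp (Primrec.const 2) (Primrec₂.natPair.comp h1 Primrec.snd))
  have h3 : Primrec (fun z : (List ℕ × List ℕ) × ℕ => z.1.1[2 * z.1.2.getD z.2 0 + 1]?) :=
    Primrec.list_getElem?.comp (Primrec.fst.comp Primrec.fst)
      (Primrec.succ.comp (Primrec.nat_mul.comp (Primrec.const 2) h1))
  have h4 := Primrec.cond (PrimrecPred.decide (Primrec.eq.comp h2 (Primrec.const (some 1)))) h3
    (Primrec.const none)
  exact h4

theorem primrec_FF : Primrec₂ FF := by
  have h1 : Primrec₂ (fun (z : List ℕ × (List ℕ × ℕ)) (k : ℕ) => stp z.1 z.2.1 k) := by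
    have h := Primrec.comp primrec_stp
      (show Primrec (fun v : (List ℕ × (List ℕ × ℕ)) × ℕ => ((v.1.1, v.1.2.1), v.2)) from
        ((Primrec.fst.comp Primrec.fst).pair
          (Primrec.fst.comp (Primrec.snd.comp Primrec.fst))).pair Primrec.snd)
    exact h
  have h2 := primrec_srchO h1 (Primrec.list_length.comp
    (Primrec.fst.comp (Primrec.snd (α := List ℕ) (β := List ℕ × ℕ))))
  exact h2

theorem getD_pre (p : ℕ → ℕ) {j k : ℕ} (h : j < k) : (pre p k).getD j 0 = p j := by
  unfold pre
  rw [List.getD_eq_getElem?_getD, List.getElem?_map, List.getElem?_range h]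
  rfl

theorem length_pre' (p : ℕ → ℕ) (k : ℕ) : (pre p k).length = k := by
  unfold pre
  simp

theorem compMap : CompMapIn K D.M E.M (hom D E) := by
  refine ⟨fun a => Nat.rfindOpt fun k =>
    FF (Pool.Agent.Helper583.TC.J2.NF.pre (b D E) k) a, ?_, ?_⟩
  · have h1 := Pool.Agent.Helper583.TC.J2.NF.recIn_of_stepped (b D E) primrec_FF
    refine RecursiveIn.subst h1 ?_
    intro g hg
    rw [Set.mem_singleton_iff] at hg
    subst hg
    exact RecursiveIn.iff_nat.2 (red_b D E)
  · intro x p hp
    obtain ⟨i0, rfl⟩ := D.surj x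
    have hval : ∀ j, D.Iso (p j) j → D.M.c (p j) = D.M.c i0 := by
      intro j hj
      refine hj i0 (lt_of_le_of_lt (hp j) ?_)
      have h6 : (0 : ℝ) < 2 ^ j := by positivity
      rw [div_lt_div_iff_of_pos_right h6]
      norm_num
    have hsound : ∀ n k m, m ∈ (Nat.rfindOpt fun t =>
        FF (Pool.Agent.Helper583.TC.J2.NF.pre (b D E) t) (pre p k, n)) → m = T D E i0 := by
      intro n k m hm
      obtain ⟨t, ht⟩ := Nat.rfindOpt_spec hm
      obtain ⟨j, hj, hj2⟩ := srchO_some _ _ _ ht
      rw [length_pre'] at hj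
      unfold stp at hj2
      simp only [getD_pre p hj] at hj2
      cases hc : decide
        ((Pool.Agent.Helper583.TC.J2.NF.pre (b D E) t)[2 * Nat.pair (p j) j]? = some 1)
      · rw [hc] at hj2
        simp at hj2
      · rw [hc, cond_true] at hj2
        rw [decide_eq_true_iff, Pool.Agent.Helper583.TC.J2.NF.getElem?_pre] at hc
        rw [Pool.Agent.Helper583.TC.J2.NF.getElem?_pre] at hj2
        rw [← hj2.2, b_odd]
        exact T_congr D E (hval j ((b_even D E _ _).1 hc.2))
    refine ⟨fun _ => T D E i0, ?_, ?_⟩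
    · intro k
      rw [hom_c, dist_self]
      positivity
    · intro n
      refine ⟨?_, fun k m hm => hsound n k m hm⟩
      -- an isolating index
      have hdisc := D.disc
      obtain ⟨ε, hε, hball⟩ := Metric.isOpen_iff.1 (isOpen_discrete {D.M.c i0}) (D.M.c i0) rfl
      obtain ⟨j, hj⟩ := exists_pow_lt_of_lt_one (show 0 < ε / 2 by positivity)
        (show (1 / 2 : ℝ) < 1 by norm_num)
      have hj' : (1 : ℝ) / 2 ^ j < ε / 2 := by rw [← one_div_pow]; exact hj
      have h1 : D.M.c (p j) = D.M.c i0 := by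
        have : D.M.c (p j) ∈ Metric.ball (D.M.c i0) ε := by
          rw [Metric.mem_ball]
          refine lt_of_le_of_lt (hp j) ?_
          linarith
        exact hball this
      have h2 : D.Iso (p j) j := by
        intro l hl
        rw [h1] at hl ⊢
        have : D.M.c l ∈ Metric.ball (D.M.c i0) ε := by
          rw [Metric.mem_ball, dist_comm]
          refine lt_trans hl ?_
          have : (2 : ℝ) / 2 ^ j = 2 * (1 / 2 ^ j) := by ring
          rw [this]
          linarith
        exact (hball this).symm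
      refine ⟨j + 1, ?_⟩
      have hdom : (Nat.rfindOpt fun t =>
          FF (Pool.Agent.Helper583.TC.J2.NF.pre (b D E) t) (pre p (j + 1), n)).Dom := by
        refine Nat.rfindOpt_dom.2
          ⟨max (2 * Nat.pair (p j) j) (2 * p j + 1) + 1, ?_⟩
        have h3 : stp (Pool.Agent.Helper583.TC.J2.NF.pre (b D E)
            (max (2 * Nat.pair (p j) j) (2 * p j + 1) + 1)) (pre p (j + 1)) j =
            some (T D E (p j)) := by
          unfold stp
          rw [getD_pre p (Nat.lt_succ_self j)]
          have h4 : (Pool.Agent.Helper583.TC.J2.NF.pre (b D E)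
            (max (2 * Nat.pair (p j) j) (2 * p j + 1) + 1))[2 * Nat.pair (p j) j]? = some 1 := by
            rw [Pool.Agent.Helper583.TC.J2.NF.getElem?_pre]
            exact ⟨by omega, (b_even D E _ _).2 h2⟩
          have h5 : (Pool.Agent.Helper583.TC.J2.NF.pre (b D E)
            (max (2 * Nat.pair (p j) j) (2 * p j + 1) + 1))[2 * p j + 1]? =
              some (T D E (p j)) := by
            rw [Pool.Agent.Helper583.TC.J2.NF.getElem?_pre]
            exact ⟨by omega, b_odd D E _⟩
          rw [h4, h5]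
          simp
        obtain ⟨v, hv⟩ := srchO_ne (stp (Pool.Agent.Helper583.TC.J2.NF.pre (b D E)
            (max (2 * Nat.pair (p j) j) (2 * p j + 1) + 1)) (pre p (j + 1)))
            (pre p (j + 1)).length j _ (by rw [length_pre']; omega) h3
        exact ⟨v, hv⟩
      obtain ⟨m, hm⟩ := Part.dom_iff_mem.1 hdom
      rw [hsound n (j + 1) m hm] at hm
      exact hm

end Disc

end Pool.Agent.L0h80.TC
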